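import Pool.Agent.R498.MP.Gold

set_option autoImplicit false

/-!
# Goldbach partitions with an almost prime along strings of consecutive primes
-/

namespace Pool.Agent.Results.MP_33f996_nt.PrimeStrings

open Filter

/-- `n` has at most `r` prime factors, counted with multiplicity, all of them at least `w`. -/
def AlmostPrime (r : ℕ) (w : ℝ) (n : ℕ) : Prop :=
  n.primeFactorsList.length ≤ r ∧ ∀ q : ℕ, q.Prime → q ∣ n → w ≤ q

/-- The primes in the interval `[x, x + C]` are exactly the numbers `x + s`, `s ∈ H`. -/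
def PrimePattern (C : ℕ) (H : Finset ℕ) (x : ℕ) : Prop := ∀ y ≤ C, (x + y).Prime ↔ y ∈ H

/-- **Every large `2 n` is `p` plus an almost prime, for strings of consecutive primes `p` in
`(√(2 n), n)`.** Let `q` be squarefree. For every `m` there are `K`, `B`, `r` and `δ > 0` such that, for every
finite set `S` of at least `K` nonnegative integers, the following holds for all large `n`, all `N` with
`√(2 n) ≤ N < n / 2` and all `c` for which `c (2 n - c)` is coprime to `q` (for instance `q = 1`). There are a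
subset `H` of `S` with at least `m` elements and at least `N / (log N) ^ B` numbers `x` with
`N < x ≤ x + max S ≤ 2 N` (so that `√(2 n) < x` and `x + max S < n`) such that the primes in
`[x, x + max S]` are exactly the numbers `x + s`, `s ∈ H`, all these primes `p` are `≡ c` modulo `q`, and
all `2 n - p` have at most `r` prime factors, all of them at least `N ^ δ`. -/
theorem result (q : ℕ) (hq : Squarefree q) (m : ℕ) : ∃ (K B r : ℕ) (δ : ℝ), 0 < δ ∧
    ∀ S : Finset ℕ, K ≤ S.card → ∀ᶠ n : ℕ in atTop, ∀ N : ℕ, 2 * n ≤ N ^ 2 → 2 * N < n →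
      ∀ c : ℕ, IsCoprime ((c : ℤ) * (2 * n - c)) (q : ℤ) →
      ∃ H ⊆ S, m ≤ H.card ∧ ∃ T : Finset ℕ, (N : ℝ) ≤ Real.log N ^ B * T.card ∧
        ∀ x ∈ T, N < x ∧ x + S.sup id ≤ 2 * N ∧ PrimePattern (S.sup id) H x ∧
          ∀ s ∈ H, x + s ≡ c [MOD q] ∧ AlmostPrime r ((N : ℝ) ^ δ) (2 * n - (x + s)) := by
  obtain ⟨K, B, δ, hδ, hmain⟩ := Pool.Agent.R498.MP.gold_stringsM q hq m
  obtain ⟨r, hr⟩ := hmain 2
  refine ⟨K, B, r, δ, hδ, fun S hS => ?_⟩
  obtain ⟨M₀, hM₀⟩ := eventually_atTop.1 (hr S hS)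
  filter_upwards [eventually_ge_atTop M₀] with n hn
  intro N h1 h2 c hc
  exact hM₀ (2 * n) (by omega) N h1 (even_two_mul n) (by omega) c (by push_cast; exact hc)

end Pool.Agent.Results.MP_33f996_nt.PrimeStrings
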